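import Pool.Agent.H15.HLU.Targets

/-! Row ODN of hlu_modules: odd orders. -/

namespace Pool.Agent.H44.HLU

open Pool.Agent.H51.Homog Pool.Agent.H22.HSQ Pool.Agent.H15.HLS Pool.Agent.H15.HLU

theorem odn_bound {X w Y : ℕ} (hX : 2 ≤ X) (hw : w ≤ X ^ 3) (hY : Y = X * (X ^ 2 + 30 * X ^ 3)) :
    w * (16 * ((30 * w + 1) * (2 * Y) + 1) ^ 3 + 31) + (30 * w + 1) * Y + w ≤ X ^ 100 := by
  have hX0 : 0 < X := by omega
  have p1 : ∀ a : ℕ, 1 ≤ X ^ a := fun a => Nat.one_le_pow _ _ hX0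
  have hX5 : 32 ≤ X ^ 5 := by
    calc 32 = 2 ^ 5 := by norm_num
      _ ≤ X ^ 5 := Nat.pow_le_pow_left hX 5
  have dbl : ∀ a b : ℕ, b = a + 1 → 2 * X ^ a ≤ X ^ b := fun a b hb => by
    rw [hb, pow_succ, mul_comm]
    exact Nat.mul_le_mul_left _ hX
  have h1 : 30 * w + 1 ≤ X ^ 8 := by
    calc 30 * w + 1 ≤ 32 * X ^ 3 := by have := p1 3; omega
      _ ≤ X ^ 5 * X ^ 3 := Nat.mul_le_mul_right _ hX5
      _ = X ^ 8 := by rw [← pow_add]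
  have h2 : Y ≤ X ^ 9 := by
    calc Y = X ^ 3 + 30 * X ^ 4 := by rw [hY]; ring
      _ ≤ X ^ 4 + 30 * X ^ 4 := by
        have := Nat.pow_le_pow_right hX0 (show 3 ≤ 4 by norm_num)
        omega
      _ ≤ 32 * X ^ 4 := by omega
      _ ≤ X ^ 5 * X ^ 4 := Nat.mul_le_mul_right _ hX5
      _ = X ^ 9 := by rw [← pow_add]
  have h3 : 2 * Y ≤ X ^ 10 := by
    have := dbl 9 10 rfl
    omega
  have h4 : (30 * w + 1) * (2 * Y) + 1 ≤ X ^ 19 := by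
    calc (30 * w + 1) * (2 * Y) + 1 ≤ X ^ 8 * X ^ 10 + 1 :=
          Nat.add_le_add_right (Nat.mul_le_mul h1 h3) 1
      _ = X ^ 18 + 1 := by rw [← pow_add]
      _ ≤ X ^ 19 := by have := dbl 18 19 rfl; have := p1 18; omega
  have h5 : 16 * ((30 * w + 1) * (2 * Y) + 1) ^ 3 + 31 ≤ X ^ 63 := by
    calc 16 * ((30 * w + 1) * (2 * Y) + 1) ^ 3 + 31 ≤ 16 * (X ^ 19) ^ 3 + 31 :=
          Nat.add_le_add_right (Nat.mul_le_mul_left _ (Nat.pow_le_pow_left h4 3)) 31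
      _ = 16 * X ^ 57 + 31 := by rw [← pow_mul]
      _ ≤ 16 * X ^ 57 + 31 * X ^ 57 := by have := p1 57; omega
      _ ≤ 64 * X ^ 57 := by omega
      _ ≤ X ^ 6 * X ^ 57 := by
        refine Nat.mul_le_mul_right _ ?_
        calc 64 = 2 ^ 6 := by norm_num
          _ ≤ X ^ 6 := Nat.pow_le_pow_left hX 6
      _ = X ^ 63 := by rw [← pow_add]
  have h6 : w * (16 * ((30 * w + 1) * (2 * Y) + 1) ^ 3 + 31) ≤ X ^ 66 := by
    calc w * (16 * ((30 * w + 1) * (2 * Y) + 1) ^ 3 + 31) ≤ X ^ 3 * X ^ 63 :=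
          Nat.mul_le_mul hw h5
      _ = X ^ 66 := by rw [← pow_add]
  have h7 : (30 * w + 1) * Y ≤ X ^ 17 := by
    calc (30 * w + 1) * Y ≤ X ^ 8 * X ^ 9 := Nat.mul_le_mul h1 h2
      _ = X ^ 17 := by rw [← pow_add]
  have h8 : X ^ 17 ≤ X ^ 66 := Nat.pow_le_pow_right hX0 (by norm_num)
  have h9 : X ^ 3 ≤ X ^ 66 := Nat.pow_le_pow_right hX0 (by norm_num)
  have h10 : X ^ 68 ≤ X ^ 100 := Nat.pow_le_pow_right hX0 (by norm_num)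
  have h11 := dbl 66 67 rfl
  have h12 := dbl 67 68 rfl
  omega

theorem pf_ODN (hFIN : T_FIN) (hOPR : T_OPR) : T_ODN := by
  intro h X σ₁ σ₂ σ₃ ω h1 h2 h3 hω o1 o2 oω hc hc3 b1 b2 b3 bω n hn hX
  have p1 : 0 < σ₁ := o1.pos
  have p2 : 0 < σ₂ := o2.pos
  have pω : 0 < ω := oω.pos
  have hX2 : 2 ≤ X := by omega
  obtain ⟨w, hw⟩ : ∃ w : ℕ, w = 2 * ω * (σ₁ * σ₂) := ⟨_, rfl⟩
  have hw0 : 0 < w := by rw [hw]; positivity
  have hwO : IsOrder h w := by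
    rw [hw]
    exact hOPR h (2 * ω) (σ₁ * σ₂) hω (o1.mul o2)
  have d1 : 2 * σ₁ ∣ w := ⟨ω * σ₂, by rw [hw]; ring⟩
  have d2 : 2 * σ₂ ∣ w := ⟨ω * σ₁, by rw [hw]; ring⟩
  have hwX : w ≤ X ^ 3 := by
    calc w = 2 * ω * (σ₁ * σ₂) := hw
      _ ≤ X * (X * X) := Nat.mul_le_mul bω (Nat.mul_le_mul b1 b2)
      _ = X ^ 3 := by ring
  -- the inverse
  have hcop : Nat.Coprime σ₃ (30 * w) := by
    have e : 30 * w = 2 * (2 * (15 * (ω * σ₁ * σ₂))) := by rw [hw]; ring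
    rw [e]
    exact Nat.Coprime.mul_right (Nat.Coprime.coprime_dvd_right ⟨_, rfl⟩ hc3) hc3
  have hs3 : 0 < σ₃ := by
    rcases Nat.eq_zero_or_pos σ₃ with h0 | h0
    · rw [h0, Nat.coprime_zero_left] at hcop
      omega
    · exact h0
  obtain ⟨g, _, hg⟩ := Nat.exists_mul_mod_eq_one_of_coprime hcop (by omega)
  obtain ⟨ρ, hρ⟩ : ∃ ρ, ρ = n + 29 * w := ⟨_, rfl⟩
  obtain ⟨N, hN⟩ : ∃ N, N = σ₁ * σ₂ + (g * ρ + (30 * w - 1) * (σ₁ * σ₂)) % (30 * w) := ⟨_, rfl⟩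
  have hNlt : N < σ₁ * σ₂ + 30 * w := by
    rw [hN]
    exact Nat.add_lt_add_left (Nat.mod_lt _ (by omega)) _
  have hNge : σ₁ * σ₂ ≤ N := by rw [hN]; exact Nat.le_add_right _ _
  have hNmod : N ≡ g * ρ [MOD 30 * w] := by
    have e1 : N ≡ σ₁ * σ₂ + (g * ρ + (30 * w - 1) * (σ₁ * σ₂)) [MOD 30 * w] := by
      rw [hN]
      exact Nat.ModEq.add_left _ (Nat.mod_modEq _ _)
    have e2 : σ₁ * σ₂ + (g * ρ + (30 * w - 1) * (σ₁ * σ₂)) = g * ρ + 30 * w * (σ₁ * σ₂) := by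
      obtain ⟨k, hk⟩ : ∃ k, 30 * w = k + 1 := ⟨30 * w - 1, by omega⟩
      rw [hk, Nat.add_sub_cancel]
      ring
    rw [e2] at e1
    refine e1.trans ?_
    have e3 : g * ρ + 30 * w * (σ₁ * σ₂) ≡ g * ρ + 0 [MOD 30 * w] :=
      Nat.ModEq.add_left _ ((Nat.modEq_zero_iff_dvd).2 ⟨_, rfl⟩)
    exact e3
  have hmod : σ₃ * N ≡ ρ [MOD 30 * w] := by
    have e1 : σ₃ * N ≡ σ₃ * (g * ρ) [MOD 30 * w] := hNmod.mul_left _
    have e2 : σ₃ * g ≡ 1 [MOD 30 * w] := by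
      show σ₃ * g % (30 * w) = 1 % (30 * w)
      rw [hg, Nat.mod_eq_of_lt (by omega)]
    have e3 : σ₃ * (g * ρ) ≡ 1 * ρ [MOD 30 * w] := by
      rw [← mul_assoc]
      exact e2.mul_right _
    rw [one_mul] at e3
    exact e1.trans e3
  have hw2 : 2 ∣ w := ⟨ω * (σ₁ * σ₂), by rw [hw]; ring⟩
  have hNodd : Odd N := by
    have e1 : σ₃ * N ≡ ρ [MOD 2] := hmod.of_dvd (Dvd.dvd.mul_left hw2 _)
    have e2 : ρ % 2 = 1 := by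
      obtain ⟨a, ha⟩ := hw2
      obtain ⟨b, hb⟩ := hn
      omega
    have e3 : σ₃ * N % 2 = 1 := Eq.trans e1 e2
    exact (Nat.odd_mul.1 (Nat.odd_iff.2 e3)).2
  obtain ⟨Y, hY⟩ : ∃ Y, Y = X * (X ^ 2 + 30 * X ^ 3) := ⟨_, rfl⟩
  refine hFIN h σ₁ σ₂ w (σ₃ * N) Y n h1 h2 hwO p1 p2 hw0 d1 d2 (hOPR h σ₃ N h3 hNodd) ?_ ?_ ?_ ?_
    ((odn_bound hX2 hwX hY).trans hX)
  · rw [hc]
    exact one_dvd _
  · exact hNge.trans (Nat.le_mul_of_pos_left _ hs3)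
  · rw [hY]
    refine Nat.mul_le_mul b3 (hNlt.le.trans ?_)
    have e1 : σ₁ * σ₂ ≤ X ^ 2 := by
      rw [pow_two]
      exact Nat.mul_le_mul b1 b2
    omega
  · have e1 : σ₃ * N + w ≡ ρ + w [MOD 30 * w] := hmod.add_right _
    refine e1.trans ?_
    have e2 : ρ + w = n + 30 * w := by rw [hρ]; ring
    rw [e2]
    have e3 : n + 30 * w ≡ n + 0 [MOD 30 * w] :=
      Nat.ModEq.add_left _ ((Nat.modEq_zero_iff_dvd).2 (dvd_refl _))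
    exact e3

end Pool.Agent.H44.HLU
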